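import Mathlib

/-!
# Bootstrap percolation with an arbitrary update family on the square lattice: closure
-/

set_option autoImplicit false

namespace Pool.Agent.J6H44.UB

open Set

/-- the sites of the square lattice -/
abbrev Site : Type := ℤ × ℤ

/-- one step of the process: a site `x` is added when `x + X` is contained in the present set, for
some `X` in the update family -/
def step (U : Finset (Finset Site)) (A : Set Site) : Set Site :=
  A ∪ {x | ∃ X ∈ U, ∀ e ∈ X, x + e ∈ A}

/-- the set `A_t` -/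
def At (U : Finset (Finset Site)) (A : Set Site) : ℕ → Set Site
  | 0 => A
  | t + 1 => step U (At U A t)

/-- the closure `[A]` -/
def cl (U : Finset (Finset Site)) (A : Set Site) : Set Site := ⋃ t, At U A t

/-- a blocked set: every rule at a site of `F` uses a site of `F` -/
def Blocked (U : Finset (Finset Site)) (F : Set Site) : Prop :=
  ∀ x ∈ F, ∀ X ∈ U, ∃ e ∈ X, x + e ∈ F

/-- the box with centre `x` and radius `r` -/
def box (x : Site) (r : ℕ) : Set Site := {y | |y.1 - x.1| ≤ r ∧ |y.2 - x.2| ≤ r}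

variable {U : Finset (Finset Site)} {A B : Set Site}

theorem At_succ (t : ℕ) : At U A (t + 1) = step U (At U A t) := rfl

theorem At_le_succ (t : ℕ) : At U A t ⊆ At U A (t + 1) := fun _ hx => Or.inl hx

theorem At_mono_t {s t : ℕ} (h : s ≤ t) : At U A s ⊆ At U A t := by
  induction h with
  | refl => exact subset_rfl
  | step _ ih => exact ih.trans (At_le_succ _)

theorem At_mono (h : A ⊆ B) (t : ℕ) : At U A t ⊆ At U B t := by
  induction t with
  | zero => exact h
  | succ t ih =>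
    rintro x (hx | ⟨X, hX, hx⟩)
    · exact Or.inl (ih hx)
    · exact Or.inr ⟨X, hX, fun e he => ih (hx e he)⟩

theorem cl_mono (h : A ⊆ B) : cl U A ⊆ cl U B := iUnion_mono fun t => At_mono h t

theorem subset_cl : A ⊆ cl U A := fun _ hx => mem_iUnion.2 ⟨0, hx⟩

theorem cl_closed {X : Finset Site} (hX : X ∈ U) {x : Site} (h : ∀ e ∈ X, x + e ∈ cl U A) :
    x ∈ cl U A := by
  have h1 : ∀ e ∈ X, ∃ t, x + e ∈ At U A t := fun e he => mem_iUnion.1 (h e he)
  choose! t ht using h1
  refine mem_iUnion.2 ⟨X.sup t + 1, Or.inr ⟨X, hX, fun e he => ?_⟩⟩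
  exact At_mono_t (Finset.le_sup he) (ht e he)

/-- a blocked set which does not meet `A` does not meet the closure -/
theorem Blocked.disj {F : Set Site} (hF : Blocked U F) (h : ∀ x ∈ F, x ∉ A) :
    ∀ x ∈ F, x ∉ cl U A := by
  have h1 : ∀ t, ∀ x ∈ F, x ∉ At U A t := by
    intro t
    induction t with
    | zero => exact h
    | succ t ih =>
      rintro x hx (h2 | ⟨X, hX, h2⟩)
      · exact ih x hx h2
      · obtain ⟨e, he, he2⟩ := hF x hx X hX
        exact ih _ he2 (h2 e he)
  intro x hx hc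
  obtain ⟨t, ht⟩ := mem_iUnion.1 hc
  exact h1 t x hx ht

/-- the range of the rules is at most `R` -/
def Range (U : Finset (Finset Site)) (R : ℕ) : Prop := ∀ X ∈ U, ∀ e ∈ X, |e.1| ≤ R ∧ |e.2| ≤ R

theorem exists_range (U : Finset (Finset Site)) : ∃ R : ℕ, 1 ≤ R ∧ Range U R := by
  refine ⟨1 + U.sup (fun X => X.sup fun e => e.1.natAbs + e.2.natAbs), by omega, ?_⟩
  intro X hX e he
  have h1 : e.1.natAbs + e.2.natAbs ≤ X.sup fun e => e.1.natAbs + e.2.natAbs :=
    Finset.le_sup (f := fun e : Site => e.1.natAbs + e.2.natAbs) he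
  have h2 : (X.sup fun e => e.1.natAbs + e.2.natAbs) ≤
      U.sup (fun X => X.sup fun e => e.1.natAbs + e.2.natAbs) :=
    Finset.le_sup (f := fun X : Finset Site => X.sup fun e => e.1.natAbs + e.2.natAbs) hX
  generalize (U.sup (fun X => X.sup fun e => e.1.natAbs + e.2.natAbs)) = q at *
  constructor
  · have : |e.1| = (e.1.natAbs : ℤ) := Int.abs_eq_natAbs _
    rw [this]
    push_cast
    omega
  · have : |e.2| = (e.2.natAbs : ℤ) := Int.abs_eq_natAbs _
    rw [this]
    push_cast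
    omega

theorem box_mono (x : Site) {r s : ℕ} (h : r ≤ s) : box x r ⊆ box x s := by
  rintro y ⟨h1, h2⟩
  have : (r : ℤ) ≤ s := by exact_mod_cast h
  exact ⟨h1.trans this, h2.trans this⟩

theorem box_add {R : ℕ} {e : Site} (he : |e.1| ≤ R ∧ |e.2| ≤ R) (x : Site) (r : ℕ) :
    box (x + e) r ⊆ box x (r + R) := by
  rintro y ⟨h1, h2⟩
  simp only [Prod.fst_add, Prod.snd_add] at h1 h2
  rw [abs_le] at h1 h2
  obtain ⟨he1, he2⟩ := he
  rw [abs_le] at he1 he2
  refine ⟨?_, ?_⟩
  · rw [abs_le]; push_cast; constructor <;> linarith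
  · rw [abs_le]; push_cast; constructor <;> linarith

theorem At_local {R : ℕ} (hR : Range U R) (t : ℕ) : ∀ x, x ∈ At U A t →
    x ∈ At U (A ∩ box x (t * R)) t := by
  induction t with
  | zero =>
    intro x hx
    refine ⟨hx, ?_⟩
    simp [box]
  | succ t ih =>
    rintro x (hx | ⟨X, hX, hx⟩)
    · have h1 := ih x hx
      refine Or.inl (At_mono (inter_subset_inter_right _ (box_mono x ?_)) t h1)
      exact Nat.mul_le_mul_right _ (Nat.le_succ t)
    · refine Or.inr ⟨X, hX, fun e he => ?_⟩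
      have h1 := ih _ (hx e he)
      refine At_mono (inter_subset_inter_right _ ?_) t h1
      have := box_add (hR X hX e he) x (t * R)
      rwa [← Nat.succ_mul] at this

/-- translation -/
theorem At_shift (v : Site) (t : ℕ) (y : Site) :
    y ∈ At U {z | z + v ∈ A} t ↔ y + v ∈ At U A t := by
  induction t generalizing y with
  | zero => exact Iff.rfl
  | succ t ih =>
    show (y ∈ At U {z | z + v ∈ A} t ∨ ∃ X ∈ U, ∀ e ∈ X, y + e ∈ At U {z | z + v ∈ A} t) ↔
      (y + v ∈ At U A t ∨ ∃ X ∈ U, ∀ e ∈ X, y + v + e ∈ At U A t)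
    have h : ∀ e : Site, y + e ∈ At U {z | z + v ∈ A} t ↔ y + v + e ∈ At U A t := by
      intro e
      rw [ih, add_right_comm]
    simp only [ih, add_right_comm y _ v]

theorem cl_shift (v : Site) (y : Site) : y ∈ cl U {z | z + v ∈ A} ↔ y + v ∈ cl U A := by
  simp only [cl, mem_iUnion, At_shift]

/-- the sites of the annulus between the radii `2 r` and `2 r + R` -/
noncomputable def Ann (r R : ℕ) : Finset Site :=
  (Finset.Icc (-((2 * r + R : ℕ) : ℤ)) ((2 * r + R : ℕ) : ℤ) ×ˢ
    Finset.Icc (-((2 * r + R : ℕ) : ℤ)) ((2 * r + R : ℕ) : ℤ)) \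
  (Finset.Icc (-((2 * r : ℕ) : ℤ)) ((2 * r : ℕ) : ℤ) ×ˢ
    Finset.Icc (-((2 * r : ℕ) : ℤ)) ((2 * r : ℕ) : ℤ))

theorem card_Ann (r R : ℕ) : (Ann r R).card = 4 * R * (4 * r + R + 1) := by
  unfold Ann
  rw [Finset.card_sdiff_of_subset]
  · rw [Finset.card_product, Finset.card_product, Int.card_Icc, Int.card_Icc]
    have e1 : (((2 * r + R : ℕ) : ℤ) + 1 - -((2 * r + R : ℕ) : ℤ)).toNat = 4 * r + 2 * R + 1 := by
      push_cast
      omega
    have e2 : (((2 * r : ℕ) : ℤ) + 1 - -((2 * r : ℕ) : ℤ)).toNat = 4 * r + 1 := by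
      push_cast
      omega
    rw [e1, e2]
    have : (4 * r + 2 * R + 1) * (4 * r + 2 * R + 1) =
        4 * R * (4 * r + R + 1) + (4 * r + 1) * (4 * r + 1) := by ring
    omega
  · intro y hy
    rw [Finset.mem_product, Finset.mem_Icc, Finset.mem_Icc] at hy ⊢
    push_cast at hy ⊢
    omega

theorem mem_Ann {r R : ℕ} {y : Site} : y ∈ Ann r R ↔ y ∈ box 0 (2 * r + R) ∧ y ∉ box 0 (2 * r) := by
  unfold Ann box
  rw [Finset.mem_sdiff, Finset.mem_product, Finset.mem_product, Finset.mem_Icc, Finset.mem_Icc,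
    Finset.mem_Icc, Finset.mem_Icc]
  simp only [mem_ofPred_eq, Prod.fst_zero, Prod.snd_zero, sub_zero, abs_le]

theorem finite_box (x : Site) (r : ℕ) : (box x r).Finite := by
  refine Set.Finite.subset (Finset.finite_toSet
    (Finset.Icc (x.1 - (r : ℤ)) (x.1 + r) ×ˢ Finset.Icc (x.2 - (r : ℤ)) (x.2 + r))) ?_
  rintro y ⟨h1, h2⟩
  rw [Finset.mem_coe, Finset.mem_product, Finset.mem_Icc, Finset.mem_Icc]
  rw [abs_le] at h1 h2
  constructor <;> constructor <;> linarith

/-- **the geometric part**: without finite blocked sets, a healthy origin sees a healthy site in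
the annulus -/
theorem exists_far {R : ℕ} (hR : Range U R) (hU : ¬ ∃ F : Finset Site, F.Nonempty ∧ Blocked U ↑F)
    (A : Set Site) (r : ℕ) (h0 : (0 : Site) ∉ cl U (A ∩ box 0 (3 * r + R))) :
    (0 : Site) ∉ cl U (A ∩ box 0 r) ∧ ∃ y ∈ Ann r R, y ∉ cl U (A ∩ box y r) := by
  refine ⟨fun h => h0 (cl_mono (inter_subset_inter_right _ (box_mono 0 (by omega))) h), ?_⟩
  by_contra hc
  push Not at hc
  have h1 : ∀ y ∈ Ann r R, y ∈ cl U (A ∩ box 0 (3 * r + R)) := by
    intro y hy
    refine cl_mono (inter_subset_inter_right _ ?_) (hc y hy)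
    have h2 := (mem_Ann.1 hy).1
    rintro z ⟨hz1, hz2⟩
    obtain ⟨hy1, hy2⟩ := h2
    simp only [Prod.fst_zero, Prod.snd_zero, sub_zero] at hy1 hy2
    rw [abs_le] at hz1 hz2 hy1 hy2
    push_cast at hy1 hy2
    refine ⟨?_, ?_⟩
    · simp only [Prod.fst_zero, sub_zero]
      rw [abs_le]; push_cast; constructor <;> linarith
    · simp only [Prod.snd_zero, sub_zero]
      rw [abs_le]; push_cast; constructor <;> linarith
  set H : Set Site := (cl U (A ∩ box 0 (3 * r + R)))ᶜ with hH
  have hfin : (H ∩ box 0 (2 * r)).Finite := (finite_box 0 (2 * r)).subset inter_subset_right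
  apply hU
  refine ⟨hfin.toFinset, ⟨0, ?_⟩, ?_⟩
  · rw [Set.Finite.mem_toFinset]
    refine ⟨h0, ?_⟩
    simp [box]
  · intro x hx X hX
    rw [Set.Finite.coe_toFinset] at hx ⊢
    obtain ⟨hx1, hx2⟩ := hx
    have h2 : ¬ ∀ e ∈ X, x + e ∈ cl U (A ∩ box 0 (3 * r + R)) := fun h => hx1 (cl_closed hX h)
    push Not at h2
    obtain ⟨e, he, he2⟩ := h2
    refine ⟨e, he, he2, ?_⟩
    by_contra h3
    apply he2
    apply h1
    rw [mem_Ann]
    refine ⟨?_, h3⟩
    obtain ⟨k1, k2⟩ := hR X hX e he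
    obtain ⟨l1, l2⟩ := hx2
    simp only [Prod.fst_zero, Prod.snd_zero, sub_zero] at l1 l2
    rw [abs_le] at k1 k2 l1 l2
    push_cast at l1 l2
    refine ⟨?_, ?_⟩
    · simp only [Prod.fst_zero, sub_zero, Prod.fst_add]
      rw [abs_le]; push_cast; constructor <;> linarith
    · simp only [Prod.snd_zero, sub_zero, Prod.snd_add]
      rw [abs_le]; push_cast; constructor <;> linarith

theorem cl_empty (h : ∀ X ∈ U, X.Nonempty) : cl U ∅ = ∅ := by
  have h1 : ∀ t, At U ∅ t = ∅ := by
    intro t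
    induction t with
    | zero => rfl
    | succ t ih =>
      rw [At_succ, ih]
      ext x
      simp only [step, mem_union, mem_empty_iff_false, mem_ofPred_eq, false_or, iff_false]
      rintro ⟨X, hX, h2⟩
      obtain ⟨e, he⟩ := h X hX
      exact h2 e he
  unfold cl
  simp [h1]

end Pool.Agent.J6H44.UB
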