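import Pool.Agent.J6H44.UB.Prob

/-!
# Bootstrap percolation with an arbitrary update family: the finite size criterion
-/

set_option autoImplicit false

namespace Pool.Agent.J6H44.UB

open MeasureTheory ProbabilityTheory Set Filter Topology
open scoped ENNReal

/-- percolation: every site is in the closure of the initial set -/
def perc (U : Finset (Finset Site)) : Set Om := {ω | cl U (init ω) = univ}

/-- the critical probability -/
noncomputable def pc (U : Finset (Finset Site)) : ℝ :=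
  sInf {p | 0 ≤ p ∧ p ≤ 1 ∧ Pr p (perc U) = 1}

/-- the occupation time of the origin -/
noncomputable def T (U : Finset (Finset Site)) (ω : Om) : ℕ∞ :=
  ⨅ (t : ℕ) (_ : (0 : Site) ∈ At U (init ω) t), (t : ℕ∞)

/-- `x` is not in the closure of the initial sites of the box with centre `x` and radius `r` -/
def arm (U : Finset (Finset Site)) (x : Site) (r : ℕ) : Set Om := {ω | x ∉ cl U (init ω ∩ box x r)}

/-- the box as a finite set -/
noncomputable def boxF (x : Site) (r : ℕ) : Finset Site := (finite_box x r).toFinset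

theorem coe_boxF (x : Site) (r : ℕ) : (boxF x r : Set Site) = box x r := Set.Finite.coe_toFinset _

theorem mem_boxF {x y : Site} {r : ℕ} : y ∈ boxF x r ↔ y ∈ box x r := Set.Finite.mem_toFinset _

variable {U : Finset (Finset Site)}

theorem init_inter {ω ω' : Om} {W : Set Site} (h : ∀ x ∈ W, ω x = ω' x) :
    init ω ∩ W = init ω' ∩ W := by
  ext x
  constructor
  · rintro ⟨h1, h2⟩
    exact ⟨(h x h2).symm.trans h1, h2⟩
  · rintro ⟨h1, h2⟩
    exact ⟨(h x h2).trans h1, h2⟩

theorem dep_arm (x : Site) (r : ℕ) : Dep (arm U x r) ↑(boxF x r) := by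
  intro ω ω' h hω
  rw [coe_boxF] at h
  show x ∉ cl U (init ω' ∩ box x r)
  rw [← init_inter h]
  exact hω

theorem meas_arm (x : Site) (r : ℕ) : MeasurableSet (arm U x r) := (dep_arm x r).meas

theorem dep_At {R : ℕ} (hR : Range U R) (x : Site) (t : ℕ) :
    Dep {ω | x ∈ At U (init ω) t} ↑(boxF x (t * R)) := by
  intro ω ω' h hω
  rw [coe_boxF] at h
  have h1 := At_local hR t x hω
  rw [init_inter h] at h1
  exact At_mono inter_subset_left t h1

theorem meas_At (x : Site) (t : ℕ) : MeasurableSet {ω : Om | x ∈ At U (init ω) t} := by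
  obtain ⟨R, _, hR⟩ := exists_range U
  exact (dep_At hR x t).meas

theorem meas_cl (x : Site) : MeasurableSet {ω : Om | x ∈ cl U (init ω)} := by
  have : {ω : Om | x ∈ cl U (init ω)} = ⋃ t, {ω : Om | x ∈ At U (init ω) t} := by
    ext ω
    simp [cl]
  rw [this]
  exact MeasurableSet.iUnion fun t => meas_At x t

theorem perc_eq : perc U = ⋂ x, {ω : Om | x ∈ cl U (init ω)} := by
  ext ω
  rw [mem_iInter]
  exact Set.eq_univ_iff_forall

theorem meas_perc : MeasurableSet (perc U) := by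
  rw [perc_eq]
  exact MeasurableSet.iInter fun x => meas_cl x

theorem shift_arm (p : ℝ) (x : Site) (r : ℕ) : (Pr p) (arm U x r) = (Pr p) (arm U 0 r) := by
  rw [← shift p x (meas_arm 0 r)]
  congr 1
  ext ω
  have h1 : init (fun z => ω (z + x)) ∩ box 0 r = {z | z + x ∈ init ω ∩ box x r} := by
    ext z
    simp [init, box]
  show x ∉ cl U (init ω ∩ box x r) ↔ (0 : Site) ∉ cl U (init (fun z => ω (z + x)) ∩ box 0 r)
  rw [h1, cl_shift, zero_add]

theorem shift_cl (p : ℝ) (x : Site) : (Pr p) {ω : Om | x ∉ cl U (init ω)} =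
    (Pr p) {ω : Om | (0 : Site) ∉ cl U (init ω)} := by
  rw [← shift p x (E := {ω : Om | (0 : Site) ∉ cl U (init ω)}) (meas_cl 0).compl]
  congr 1
  ext ω
  have h1 : init (fun z => ω (z + x)) = {z | z + x ∈ init ω} := rfl
  show x ∉ cl U (init ω) ↔ (0 : Site) ∉ cl U (init (fun z => ω (z + x)))
  rw [h1, cl_shift, zero_add]

/-- the recursive inequality -/
theorem arm_step {R : ℕ} (hR : Range U R) (hU : ¬ ∃ F : Finset Site, F.Nonempty ∧ Blocked U ↑F)
    (p : ℝ) (r : ℕ) : (Pr p).real (arm U 0 (3 * r + R)) ≤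
      4 * R * (4 * r + R + 1) * (Pr p).real (arm U 0 r) ^ 2 := by
  have h1 : arm U 0 (3 * r + R) ⊆ ⋃ y ∈ Ann r R, arm U 0 r ∩ arm U y r := by
    intro ω hω
    obtain ⟨h2, y, hy, h3⟩ := exists_far hR hU (init ω) r hω
    exact mem_iUnion₂.2 ⟨y, hy, h2, h3⟩
  have h2 : (Pr p) (arm U 0 (3 * r + R)) ≤ ∑ y ∈ Ann r R, (Pr p) (arm U 0 r) ^ 2 := by
    refine (measure_mono h1).trans ((measure_biUnion_finset_le _ _).trans ?_)
    refine Finset.sum_le_sum fun y hy => ?_
    rw [(dep_arm 0 r).inter (dep_arm y r) ?_ p, shift_arm p y r, sq]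
    rw [Finset.disjoint_left]
    intro z hz hz2
    rw [mem_boxF] at hz hz2
    apply (mem_Ann.1 hy).2
    obtain ⟨a1, a2⟩ := hz
    obtain ⟨b1, b2⟩ := hz2
    simp only [Prod.fst_zero, Prod.snd_zero, sub_zero] at a1 a2
    rw [abs_le] at a1 a2 b1 b2
    refine ⟨?_, ?_⟩
    · simp only [Prod.fst_zero, sub_zero]
      rw [abs_le]; push_cast; constructor <;> linarith
    · simp only [Prod.snd_zero, sub_zero]
      rw [abs_le]; push_cast; constructor <;> linarith
  rw [Finset.sum_const, card_Ann, nsmul_eq_mul] at h2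
  have h3 := ENNReal.toReal_mono (ENNReal.mul_ne_top (ENNReal.natCast_ne_top _)
    (ENNReal.pow_ne_top (measure_ne_top _ _))) h2
  rw [ENNReal.toReal_mul, ENNReal.toReal_pow, ENNReal.toReal_natCast] at h3
  push_cast at h3
  exact h3

/-- the radii of the recursion -/
def rad (R r : ℕ) : ℕ → ℕ
  | 0 => r
  | k + 1 => 3 * rad R r k + R

theorem arm_seq {R : ℕ} (hR1 : 1 ≤ R) (hR : Range U R)
    (hU : ¬ ∃ F : Finset Site, F.Nonempty ∧ Blocked U ↑F) (p : ℝ) (r : ℕ) {q : ℝ}
    (hq : 5 * (4 * R * (4 * r + R + 1) * (Pr p).real (arm U 0 r)) ≤ q) (hq1 : q ≤ 1) (k : ℕ) :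
    5 * (4 * R * (4 * rad R r k + R + 1) * (Pr p).real (arm U 0 (rad R r k))) ≤ q ^ (k + 1) := by
  have hq0 : 0 ≤ q := le_trans (by positivity) hq
  induction k with
  | zero => simpa [rad] using hq
  | succ k ih =>
    have h1 := arm_step hR hU p (rad R r k)
    show 5 * (4 * (R : ℝ) * (4 * ((3 * rad R r k + R : ℕ) : ℝ) + R + 1) *
      (Pr p).real (arm U 0 (3 * rad R r k + R))) ≤ q ^ (k + 1 + 1)
    push_cast
    generalize (Pr p).real (arm U 0 (3 * rad R r k + R)) = a' at *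
    have ha0 : 0 ≤ (Pr p).real (arm U 0 (rad R r k)) := measureReal_nonneg
    generalize (Pr p).real (arm U 0 (rad R r k)) = a at *
    have hx0 : (0 : ℝ) ≤ (rad R r k : ℝ) := Nat.cast_nonneg _
    generalize ((rad R r k : ℕ) : ℝ) = x at *
    have hR0 : (1 : ℝ) ≤ R := by exact_mod_cast hR1
    have h2 : 4 * (R : ℝ) * (4 * (3 * x + R) + R + 1) ≤ 5 * (4 * (R : ℝ) * (4 * x + R + 1)) := by
      nlinarith
    have hK0 : 0 ≤ 4 * (R : ℝ) * (4 * x + R + 1) := by positivity
    have ha'0 : 0 ≤ 4 * (R : ℝ) * (4 * x + R + 1) * a ^ 2 := by positivity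
    have hL0 : 0 ≤ 4 * (R : ℝ) * (4 * (3 * x + R) + R + 1) := by positivity
    have h3 : 4 * (R : ℝ) * (4 * (3 * x + R) + R + 1) * a' ≤
        5 * (4 * (R : ℝ) * (4 * x + R + 1)) * (4 * (R : ℝ) * (4 * x + R + 1) * a ^ 2) :=
      (mul_le_mul_of_nonneg_left h1 hL0).trans (mul_le_mul_of_nonneg_right h2 ha'0)
    have h4 : 5 * (4 * (R : ℝ) * (4 * (3 * x + R) + R + 1) * a') ≤
        (5 * (4 * (R : ℝ) * (4 * x + R + 1) * a)) ^ 2 := by
      have e : (5 * (4 * (R : ℝ) * (4 * x + R + 1) * a)) ^ 2 =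
        5 * (5 * (4 * (R : ℝ) * (4 * x + R + 1)) * (4 * (R : ℝ) * (4 * x + R + 1) * a ^ 2)) := by
        ring
      rw [e]
      linarith
    have h5 : 0 ≤ 5 * (4 * (R : ℝ) * (4 * x + R + 1) * a) := by positivity
    refine h4.trans ((pow_le_pow_left₀ h5 ih 2).trans ?_)
    rw [← pow_mul]
    exact pow_le_pow_of_le_one hq0 hq1 (by omega)

/-- **the finite size criterion** -/
theorem crit {R : ℕ} (hR1 : 1 ≤ R) (hR : Range U R)
    (hU : ¬ ∃ F : Finset Site, F.Nonempty ∧ Blocked U ↑F) (p : ℝ) (r : ℕ)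
    (h : 5 * (4 * R * (4 * r + R + 1) * (Pr p).real (arm U 0 r)) < 1) : Pr p (perc U) = 1 := by
  set q := 5 * (4 * (R : ℝ) * (4 * r + R + 1) * (Pr p).real (arm U 0 r)) with hqd
  have hq0 : 0 ≤ q := by positivity
  have h1 : ∀ k, (Pr p).real {ω : Om | (0 : Site) ∉ cl U (init ω)} ≤ q ^ (k + 1) := by
    intro k
    have h2 := arm_seq hR1 hR hU p r (q := q) le_rfl h.le k
    have h3 : (Pr p).real {ω : Om | (0 : Site) ∉ cl U (init ω)} ≤
        (Pr p).real (arm U 0 (rad R r k)) :=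
      measureReal_mono (fun ω hω hc => hω (cl_mono inter_subset_left hc)) (measure_ne_top _ _)
    have h4 : (Pr p).real (arm U 0 (rad R r k)) ≤
        5 * (4 * (R : ℝ) * (4 * rad R r k + R + 1) * (Pr p).real (arm U 0 (rad R r k))) := by
      have ha0 : 0 ≤ (Pr p).real (arm U 0 (rad R r k)) := measureReal_nonneg
      generalize (Pr p).real (arm U 0 (rad R r k)) = a at *
      have hx0 : (0 : ℝ) ≤ (rad R r k : ℝ) := Nat.cast_nonneg _
      generalize ((rad R r k : ℕ) : ℝ) = x at *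
      have hR0 : (1 : ℝ) ≤ R := by exact_mod_cast hR1
      have h5 : 1 ≤ 5 * (4 * (R : ℝ) * (4 * x + R + 1)) := by nlinarith
      calc a = 1 * a := (one_mul a).symm
        _ ≤ 5 * (4 * (R : ℝ) * (4 * x + R + 1)) * a := mul_le_mul_of_nonneg_right h5 ha0
        _ = _ := by ring
    exact h3.trans (h4.trans h2)
  have h2 : (Pr p).real {ω : Om | (0 : Site) ∉ cl U (init ω)} ≤ 0 := by
    have h3 : Tendsto (fun k : ℕ => q ^ (k + 1)) atTop (𝓝 0) :=
      (tendsto_pow_atTop_nhds_zero_of_lt_one hq0 h).comp (tendsto_add_atTop_nat 1)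
    exact ge_of_tendsto' h3 h1
  have h3 : (Pr p) {ω : Om | (0 : Site) ∉ cl U (init ω)} = 0 := by
    have h4 : (Pr p).real {ω : Om | (0 : Site) ∉ cl U (init ω)} = 0 :=
      le_antisymm h2 measureReal_nonneg
    rwa [measureReal_eq_zero_iff] at h4
  have h4 : (Pr p) (perc U)ᶜ = 0 := by
    rw [perc_eq, compl_iInter]
    refine measure_iUnion_null fun x => ?_
    have h5 := shift_cl (U := U) p x
    rw [h3] at h5
    exact h5
  exact (prob_compl_eq_zero_iff meas_perc).1 h4

end Pool.Agent.J6H44.UB
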