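import Pool.Agent.J6H44.UB.Core

/-!
# Bootstrap percolation with an arbitrary update family: the Bernoulli measure
-/

set_option autoImplicit false

namespace Pool.Agent.J6H44.UB

open MeasureTheory ProbabilityTheory Set Filter Topology
open scoped ENNReal

/-- configurations; `true` at `x` means that `x` is in the initial set -/
abbrev Om : Type := Site → Bool

/-- the initial set -/
def init (ω : Om) : Set Site := {x | ω x = true}

/-- the parameter, clamped to `[0, 1]` -/
noncomputable def clamp (p : ℝ) : ℝ := max 0 (min 1 p)

/-- the Bernoulli law -/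
noncomputable def bern (p : ℝ) : Measure Bool :=
  ENNReal.ofReal (clamp p) • Measure.dirac true + ENNReal.ofReal (1 - clamp p) • Measure.dirac false

theorem clamp_nonneg (p : ℝ) : 0 ≤ clamp p := le_max_left _ _
theorem clamp_le_one (p : ℝ) : clamp p ≤ 1 := max_le zero_le_one (min_le_left _ _)
theorem clamp_eq {p : ℝ} (h0 : 0 ≤ p) (h1 : p ≤ 1) : clamp p = p := by
  unfold clamp; rw [min_eq_right h1, max_eq_right h0]
theorem continuous_clamp : Continuous clamp := continuous_const.max (continuous_const.min continuous_id)

instance bern_prob (p : ℝ) : IsProbabilityMeasure (bern p) := by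
  constructor
  unfold bern
  rw [Measure.add_apply, Measure.smul_apply, Measure.smul_apply, measure_univ, measure_univ,
    smul_eq_mul, smul_eq_mul, mul_one, mul_one, ← ENNReal.ofReal_add (clamp_nonneg p)
    (by linarith [clamp_le_one p])]
  simp

theorem bern_true (p : ℝ) : (bern p).real {true} = clamp p := by
  unfold bern Measure.real
  rw [Measure.add_apply, Measure.smul_apply, Measure.smul_apply]
  simp [clamp_nonneg p]

theorem bern_false (p : ℝ) : (bern p).real {false} = 1 - clamp p := by
  unfold bern Measure.real
  rw [Measure.add_apply, Measure.smul_apply, Measure.smul_apply]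
  simp [clamp_le_one p]

theorem continuous_bern (b : Bool) : Continuous fun p => (bern p).real {b} := by
  cases b
  · simp only [bern_false]
    exact continuous_const.sub continuous_clamp
  · simp only [bern_true]
    exact continuous_clamp

/-- the law of the initial configuration -/
noncomputable def Pr (p : ℝ) : Measure Om := Measure.infinitePi fun _ : Site => bern p

instance Pr_prob (p : ℝ) : IsProbabilityMeasure (Pr p) := by
  unfold Pr; infer_instance

/-- the event depends only on the sites of `W` -/
def Dep (E : Set Om) (W : Set Site) : Prop := ∀ ω ω' : Om, (∀ x ∈ W, ω x = ω' x) → ω ∈ E → ω' ∈ E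

/-- extend by `false` -/
def ext0 (W : Finset Site) (η : (x : W) → Bool) : Om := fun x => if h : x ∈ W then η ⟨x, h⟩ else false

theorem Dep.eq {E : Set Om} {W : Finset Site} (h : Dep E ↑W) :
    E = cylinder W {η : (x : W) → Bool | ext0 W η ∈ E} := by
  ext ω
  rw [mem_cylinder, mem_ofPred_eq]
  have h1 : ∀ x ∈ (W : Set Site), ω x = ext0 W (W.restrict ω) x := by
    intro x hx
    have hx' : x ∈ W := hx
    simp [ext0, hx', Finset.restrict]
  exact ⟨fun h2 => h _ _ h1 h2, fun h2 => h _ _ (fun x hx => (h1 x hx).symm) h2⟩

theorem Dep.meas {E : Set Om} {W : Finset Site} (h : Dep E ↑W) : MeasurableSet E := by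
  rw [h.eq]
  exact MeasurableSet.cylinder W (Set.toFinite _).measurableSet

open Classical in
theorem Dep.prob {E : Set Om} {W : Finset Site} (h : Dep E ↑W) (p : ℝ) :
    (Pr p).real E = ∑ η : ((x : W) → Bool) with ext0 W η ∈ E, ∏ x : W, (bern p).real {η x} := by
  have h1 : (Pr p) E = Measure.pi (fun _ : W => bern p) {η : (x : W) → Bool | ext0 W η ∈ E} := by
    conv_lhs => rw [h.eq]
    exact Measure.infinitePi_cylinder (fun _ : Site => bern p) (Set.toFinite _).measurableSet
  have h2 : ({η : (x : W) → Bool | ext0 W η ∈ E} : Set _) =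
      ↑(Finset.univ.filter fun η : ((x : W) → Bool) => ext0 W η ∈ E) := by
    ext η
    simp
  unfold Measure.real
  rw [h1, h2, ← sum_measure_singleton, ENNReal.toReal_sum (fun _ _ => measure_ne_top _ _)]
  refine Finset.sum_congr rfl fun η _ => ?_
  rw [Measure.pi_singleton, ENNReal.toReal_prod]

theorem Dep.cont {E : Set Om} {W : Finset Site} (h : Dep E ↑W) :
    Continuous fun p => (Pr p).real E := by
  classical
  have h1 : (fun p => (Pr p).real E) =
      fun p => ∑ η : ((x : W) → Bool) with ext0 W η ∈ E, ∏ x : W, (bern p).real {η x} := by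
    funext p
    rw [h.prob p]
  rw [h1]
  exact continuous_finsetSum _ fun η _ => continuous_finsetProd _ fun x _ => continuous_bern _

theorem indep (p : ℝ) : iIndepFun (fun (x : Site) (ω : Om) => ω x) (Pr p) :=
  iIndepFun_infinitePi (P := fun _ : Site => bern p) (X := fun _ t => t) (fun _ => measurable_id)

theorem Dep.inter {E E' : Set Om} {W W' : Finset Site} (h : Dep E ↑W) (h' : Dep E' ↑W')
    (hd : Disjoint W W') (p : ℝ) : (Pr p) (E ∩ E') = (Pr p) E * (Pr p) E' := by
  have h1 := (indep p).indepFun_finset W W' hd (fun x => measurable_pi_apply x)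
  rw [h.eq, h'.eq]
  exact h1.measure_inter_preimage_eq_mul _ _ (Set.toFinite _).measurableSet
    (Set.toFinite _).measurableSet

/-- translation invariance -/
theorem shift (p : ℝ) (v : Site) {E : Set Om} (hE : MeasurableSet E) :
    (Pr p) {ω | (fun z => ω (z + v)) ∈ E} = (Pr p) E := by
  have h1 := Measure.map_infinitePi_infinitePi_of_inj (P := fun _ : Site => bern p)
    (f := fun z : Site => z + v) (add_left_injective v)
  have h2 : (Pr p).map (fun (ω : Om) z => ω (z + v)) = Pr p := h1
  conv_rhs => rw [← h2]
  rw [Measure.map_apply (by fun_prop) hE]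
  rfl

/-- the probability that the sites of `W` are not in the initial set -/
theorem prob_empty (p : ℝ) (W : Finset Site) :
    (Pr p) {ω | ∀ x ∈ W, ω x = false} = (bern p {false}) ^ W.card := by
  have h1 := Measure.infinitePi_pi (fun _ : Site => bern p) (s := W) (t := fun _ => {false})
    (fun _ _ => measurableSet_singleton _)
  rw [Finset.prod_const] at h1
  rw [← h1]
  congr 1

end Pool.Agent.J6H44.UB
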